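import Pool.Agent.MWLQ.StmtsA

/-!
# Row RGZ of block MWLQ (MP_23468a_al): rigidity of y, second part (twin of the row of MWLE)
-/

set_option autoImplicit false

namespace Pool.Agent.MWLQ.H32

open Pool.Agent.Helper14_MV
open Pool.Agent.Helper2_MV (RR)
open Pool.Agent.MWK (pre)
open Pool.Agent.MWGN (nn Tau gh)
open Pool.Agent.MWGQ (pw Z Gn E0 A0 P0)
open Pool.Agent.MWLE (pin sep con tl tll Sg t1 Fc Fb Fy Fx Fu Fz rz sf k0)

theorem psi_con (n k : ℕ) : psi n 0 (con k) = List.replicate (n + 1) (con k) := by
  have h1 : ¬ 5 * k + 4 = 0 := by omega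
  have h2 : (5 * k + 4) % 5 = 4 := by omega
  unfold psi con
  rw [if_neg h1, if_pos h2]

theorem psi_pin (n k : ℕ) : psi n 0 (pin k) = [pin k] := by
  have h1 : ¬ 5 * k + 2 = 0 := by omega
  have h2 : ¬ (5 * k + 2) % 5 = 4 := by omega
  unfold psi pin
  rw [if_neg h1, if_neg h2]

theorem psi_sep (n k : ℕ) : psi n 0 (sep k) = [sep k] := by
  have h1 : ¬ 5 * k + 3 = 0 := by omega
  have h2 : ¬ (5 * k + 3) % 5 = 4 := by omega
  unfold psi sep
  rw [if_neg h1, if_neg h2]

theorem psi_one (n : ℕ) : psi n 0 1 = [1] := by
  unfold psi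
  rw [if_neg (by norm_num), if_neg (by norm_num)]

theorem psi_tail (n : ℕ) (l : List ℕ) (h : ∀ c ∈ l, ∃ k, c = sep k ∨ c = pin k) :
    l.flatMap (psi n 0) = l := by
  induction l with
  | nil => rfl
  | cons a l ih =>
    rw [List.flatMap_cons, ih (fun c hc => h c (List.mem_cons_of_mem _ hc))]
    obtain ⟨k, rfl | rfl⟩ := h a List.mem_cons_self
    · rw [psi_sep]; rfl
    · rw [psi_pin]; rfl

theorem psi_G (n : ℕ) (l : List ℕ) (h : ∀ c ∈ l, ∃ k, c = con k) :
    l.flatMap (psi n 0) = dn n l := by
  unfold dn
  apply List.flatMap_congr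
  intro c hc
  obtain ⟨k, rfl⟩ := h c hc
  exact psi_con n k

theorem rz_fix (m : ℕ) (l : List ℕ) (h : ∀ c ∈ l, c ≠ pin (m + 2) ∧ c ≠ sep (m + 2)) :
    l.map (rz m) = l := by
  have h1 : l.map (rz m) = l.map id := by
    apply List.map_congr_left
    intro c hc
    unfold rz
    rw [if_neg (h c hc).1, if_neg (h c hc).2]
    rfl
  rw [h1, List.map_id]

theorem sub_map (g : ℕ → ℕ) (l : List ℕ) : l.flatMap (fun c => [g c]) = l.map g := by
  induction l with
  | nil => rfl
  | cons a l ih => rw [List.flatMap_cons, ih]; rfl

theorem tl_map (τ : List ℕ) : tl (τ.map (fun i => i + 1)) =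
    tll (fun i => sep (i + 1)) (fun i => pin (i + 1)) τ := by
  unfold tl tll
  rw [List.flatMap_map]

theorem tl_map2 (m : ℕ) (τ : List ℕ) (h : ∀ i ∈ τ, i ≤ m) :
    (tl (τ.map (fun i => if i = m then m + 2 else i + 1))).map (rz m) =
      tll (fun i => sep (i + 1)) (fun i => pin (i + 1)) τ := by
  induction τ with
  | nil => rfl
  | cons i τ ih =>
    have e1 : tl ((i :: τ).map (fun i => if i = m then m + 2 else i + 1)) =
        sep (if i = m then m + 2 else i + 1) :: pin (if i = m then m + 2 else i + 1) ::
          tl (τ.map (fun i => if i = m then m + 2 else i + 1)) := rfl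
    have e2 : tll (fun i => sep (i + 1)) (fun i => pin (i + 1)) (i :: τ) =
        sep (i + 1) :: pin (i + 1) ::
          tll (fun i => sep (i + 1)) (fun i => pin (i + 1)) τ := rfl
    rw [e1, e2, List.map_cons, List.map_cons, ih (fun j hj => h j (List.mem_cons_of_mem _ hj))]
    have hi := h i List.mem_cons_self
    by_cases him : i = m
    · rw [if_pos him, him]
      have h1 : rz m (sep (m + 2)) = sep (m + 1) := by
        unfold rz
        rw [if_neg (by unfold sep pin; omega), if_pos rfl]
      have h2 : rz m (pin (m + 2)) = pin (m + 1) := by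
        unfold rz
        rw [if_pos rfl]
      rw [h1, h2]
    · rw [if_neg him]
      have h1 : rz m (sep (i + 1)) = sep (i + 1) := by
        unfold rz
        rw [if_neg (by unfold sep pin; omega), if_neg (by unfold sep; omega)]
      have h2 : rz m (pin (i + 1)) = pin (i + 1) := by
        unfold rz
        rw [if_neg (by unfold pin; omega), if_neg (by unfold sep pin; omega)]
      rw [h1, h2]

theorem mem_tll (τ : List ℕ) {i : ℕ} (h : i ∈ τ) :
    pin (i + 1) ∈ tll (fun i => sep (i + 1)) (fun i => pin (i + 1)) τ := by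
  unfold tll
  rw [List.mem_flatMap]
  exact ⟨i, h, by simp⟩

theorem ctx (β : FIC) (p q : List ℕ) {l l' : List ℕ} (h : RR β l l') :
    RR β (p ++ (l ++ q)) (p ++ (l' ++ q)) := (RR.refl p).append (h.append (RR.refl q))

/-- powers of a content -/
theorem rep_flat (n a c : ℕ) (f : ℕ → List ℕ) (h : f c = List.replicate (n + 1) c) :
    (List.replicate a c).flatMap f = List.replicate (a * (n + 1)) c := by
  induction a with
  | zero => simp
  | succ a ih =>
    rw [List.replicate_succ, List.flatMap_cons, ih, h, List.replicate_append_replicate]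
    congr 1
    ring

/-- the word of `BtS` -/
theorem dq_v (n m : ℕ) : ∀ k, dq n (fun c => decide (c % 5 = 2))
    ((List.range k).flatMap (fun i => List.replicate (n + 1) (con i) ++ [pin (i + 1)]) ++
      List.replicate (n + 1) (con m)) =
      lw4 n (fun i => pin (i + 1)) con k ++ List.replicate ((n + 1) * (n + 1)) (con m) := by
  intro k
  unfold dq lw4
  rw [List.flatMap_append]
  have hc : ∀ i : ℕ, (if (decide (con i % 5 = 2)) = true then [con i] else
      List.replicate (n + 1) (con i)) = List.replicate (n + 1) (con i) := by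
    intro i
    have : ¬ (5 * i + 4) % 5 = 2 := by omega
    unfold con
    simp [this]
  have hp : ∀ i : ℕ, (if (decide (pin i % 5 = 2)) = true then [pin i] else
      List.replicate (n + 1) (pin i)) = [pin i] := by
    intro i
    have : (5 * i + 2) % 5 = 2 := by omega
    unfold pin
    simp [this]
  congr 1
  · rw [List.flatMap_assoc]
    apply List.flatMap_congr
    intro i _
    rw [List.flatMap_append, rep_flat n (n + 1) (con i) _ (hc i), List.flatMap_cons,
      List.flatMap_nil, List.append_nil]
    congr 1
    exact hp (i + 1)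
  · exact rep_flat n (n + 1) (con m) _ (hc m)

theorem v_filter (n m : ℕ) : ∀ k,
    ((List.range k).flatMap (fun i => List.replicate (n + 1) (con i) ++ [pin (i + 1)]) ++
      List.replicate (n + 1) (con m)).filter
      (fun c => decide (c % 5 = 2)) = (List.range k).map (fun i => pin (i + 1)) := by
  intro k
  have hc : ∀ i : ℕ, (decide (con i % 5 = 2)) = false := by
    intro i
    have : ¬ (5 * i + 4) % 5 = 2 := by omega
    unfold con
    simp [this]
  have hp : ∀ i : ℕ, (decide (pin i % 5 = 2)) = true := by
    intro i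
    have : (5 * i + 2) % 5 = 2 := by omega
    unfold pin
    simp [this]
  have hr : ∀ i : ℕ, (List.replicate (n + 1) (con i)).filter (fun c => decide (c % 5 = 2)) = [] := by
    intro i
    rw [List.filter_eq_nil_iff]
    intro a ha
    rw [List.eq_of_mem_replicate ha]
    simp only [hc]
    exact Bool.false_ne_true
  rw [List.filter_append, hr, List.append_nil]
  have h2 : ∀ L : List ℕ, (L.flatMap (fun i => List.replicate (n + 1) (con i) ++
      [pin (i + 1)])).filter (fun c => decide (c % 5 = 2)) = L.map (fun i => pin (i + 1)) := by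
    intro L
    induction L with
    | nil => rfl
    | cons a L ih =>
      rw [List.flatMap_cons, List.filter_append, List.filter_append, ih, List.map_cons, hr,
        List.filter_cons]
      simp only [hp]
      rfl
  exact h2 _

/-- the part in front of a letter after a filter -/
theorem pre_filter (F : ℕ → Bool) (z : ℕ) (hz : F z = true) : ∀ W : List ℕ,
    pre (W.filter F) z = (pre W z).filter F := by
  intro W
  induction W with
  | nil => rfl
  | cons a W ih =>
    by_cases ha : a = z
    · subst ha
      rw [List.filter_cons, if_pos hz, MWK.pre_cons_self, MWK.pre_cons_self]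
      rfl
    · have e : pre (a :: W) z = a :: pre W z := by
        unfold pre
        rw [List.takeWhile_cons, if_pos (by simpa using ha)]
      rw [e, List.filter_cons, List.filter_cons]
      by_cases hF : F a = true
      · rw [if_pos hF, if_pos hF]
        have e2 : pre (a :: W.filter F) z = a :: pre (W.filter F) z := by
          unfold pre
          rw [List.takeWhile_cons, if_pos (by simpa using ha)]
        rw [e2, ih]
      · rw [if_neg hF, if_neg hF, ih]

theorem nn_filter (F : ℕ → Bool) (W : List ℕ) (c z : ℕ) (hz : F z = true) (hc : F c = true) :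
    nn W c z = nn (W.filter F) c z := by
  unfold nn
  rw [pre_filter F z hz, List.count_filter hc]

/-- RGZ. -/
theorem rgz (spz : MWLE.SpzStmt) (tnf : TnfStmt) (rgc : RgcStmt) (cpy : CpyStmt) (pst : PstStmt)
    (xfs : XfsStmt) (fac : FacStmt) (ler : LerStmt) (dqs : DqsStmt) : RgzStmt := by
  intro n β hG hE hP hk hFF σ τ m hT hS hB W hK hle
  obtain ⟨hF, hcon, hpc⟩ := fac n β hG hE hk σ τ m 0 (by omega) hS W hK
  obtain ⟨⟨y2, yt, y0⟩, x3⟩ := (xfs n β hG hE hP hk σ τ m hS W).2 hK
  obtain ⟨P, G, Q, eU, eZ, hPl, hPp, hP1, hGl, hQl, hQ1, hcP⟩ :=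
    spz σ τ m hS W hF (fun c hc h4 => (hcon c hc h4).2) y2 yt y0 hle
  have hτm : ∀ i ∈ τ, i ≤ m := fun i hi => (hT.2 i).1 hi
  obtain ⟨cU, cZ⟩ := cpy n σ τ m hS hτm
  obtain ⟨-, -, -, -, -, pF⟩ := pst n 0 W (by omega)
  set T := tll (fun i => sep (i + 1)) (fun i => pin (i + 1)) τ with hTdef
  -- the letters of the images
  have hψP : ∀ c ∈ P.flatMap (psi n 0), c = 1 ∨ (∃ k ≤ m, c = con k) ∨ ∃ i < m, c = pin (i + 1) := by
    intro c hc
    rw [List.mem_flatMap] at hc
    obtain ⟨d, hd, hc⟩ := hc
    rcases hPl d hd with rfl | ⟨k, hk, rfl⟩ | ⟨i, hi, rfl⟩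
    · rw [psi_one] at hc
      exact Or.inl (by simpa using hc)
    · rw [psi_con] at hc
      exact Or.inr (Or.inl ⟨k, hk, List.eq_of_mem_replicate hc⟩)
    · rw [psi_pin] at hc
      exact Or.inr (Or.inr ⟨i, hi, by simpa using hc⟩)
  have hψQ : ∀ c ∈ Q.flatMap (psi n 0), c = 1 ∨ ∃ k ≤ m, c = con k := by
    intro c hc
    rw [List.mem_flatMap] at hc
    obtain ⟨d, hd, hc⟩ := hc
    rcases hQl d hd with rfl | ⟨k, hk, rfl⟩
    · rw [psi_one] at hc
      exact Or.inl (by simpa using hc)
    · rw [psi_con] at hc
      exact Or.inr ⟨k, hk, List.eq_of_mem_replicate hc⟩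
  have hG' : ∀ c ∈ G, ∃ k, c = con k := fun c hc => by
    obtain ⟨k, -, e, -⟩ := hGl c hc
    exact ⟨k, e⟩
  have pinP : ∀ i < m, pin (i + 1) ∈ P.flatMap (psi n 0) := by
    intro i hi
    rw [List.mem_flatMap]
    refine ⟨pin (i + 1), ?_, by rw [psi_pin]; simp⟩
    rw [← List.count_pos_iff, hPp i hi]
    omega
  -- U1
  have t1' : ∀ (F : ℕ → Bool), ((sf W (t1 σ)).filter (fun c =>
      decide (∃ k, k ≤ 2 * m + 2 ∧ F k = true ∧ (c = sep k ∨ c = pin k)))).flatMap (psi n 0) =
      (sf W (t1 σ)).filter (fun c =>
        decide (∃ k, k ≤ 2 * m + 2 ∧ F k = true ∧ (c = sep k ∨ c = pin k))) := by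
    intro F
    apply psi_tail
    intro c hc
    have h1 := (List.mem_filter.1 hc).2
    simp only [decide_eq_true_eq] at h1
    obtain ⟨k, -, -, h2⟩ := h1
    exact ⟨k, h2⟩
  have hU : RR β ((W.flatMap (psi n 0)).filter (Fu m))
      (P.flatMap (psi n 0) ++ pin (m + 1) :: (dn n G ++ (Q.flatMap (psi n 0) ++ T))) := by
    rw [pF (Fu m), eU]
    rw [List.flatMap_append, List.flatMap_cons, psi_pin, List.flatMap_append, psi_G n G hG',
      List.flatMap_append, t1' (fun k => decide (1 ≤ k ∧ k ≤ m + 1))]
    have h1 := tnf n β hG σ τ m hS W hF hpc (fun k => decide (1 ≤ k ∧ k ≤ m + 1))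
      (P.flatMap (psi n 0) ++ (pin (m + 1) :: (dn n G ++ Q.flatMap (psi n 0)))) (by
        intro k _ hk
        simp only [decide_eq_true_eq] at hk
        by_cases hkm : k = m + 1
        · rw [hkm]; simp
        · obtain ⟨i, rfl⟩ : ∃ i, k = i + 1 := ⟨k - 1, by omega⟩
          exact List.mem_append_left _ (pinP i (by omega)))
    rw [hS.f1, tl_map, ← hTdef] at h1
    simpa [List.append_assoc] using h1
  have hZ : RR β (((W.flatMap (psi n 0)).filter (Fz m)).map (rz m))
      (P.flatMap (psi n 0) ++ (dn n G ++ pin (m + 1) :: (Q.flatMap (psi n 0) ++ T))) := by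
    rw [pF (Fz m), eZ]
    rw [List.flatMap_append, List.flatMap_append, List.flatMap_cons, psi_pin, psi_G n G hG',
      List.flatMap_append, t1' (fun k => decide ((1 ≤ k ∧ k ≤ m) ∨ k = m + 2))]
    have h1 := tnf n β hG σ τ m hS W hF hpc (fun k => decide ((1 ≤ k ∧ k ≤ m) ∨ k = m + 2))
      (P.flatMap (psi n 0) ++ (dn n G ++ (pin (m + 2) :: Q.flatMap (psi n 0)))) (by
        intro k _ hk
        simp only [decide_eq_true_eq] at hk
        by_cases hkm : k = m + 2
        · rw [hkm]; simp
        · obtain ⟨i, rfl⟩ : ∃ i, k = i + 1 := ⟨k - 1, by omega⟩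
          exact List.mem_append_left _ (pinP i (by omega)))
    have h2 := RR.sub (β := β) (fun c => [rz m c]) h1
    rw [sub_map, sub_map, hS.f2] at h2
    have f1 : (P.flatMap (psi n 0)).map (rz m) = P.flatMap (psi n 0) := by
      apply rz_fix
      intro c hc
      rcases hψP c hc with rfl | ⟨k, hk, rfl⟩ | ⟨i, hi, rfl⟩
      · exact ⟨by unfold pin; omega, by unfold sep; omega⟩
      · exact ⟨by unfold pin con; omega, by unfold sep con; omega⟩
      · exact ⟨by unfold pin; omega, by unfold sep pin; omega⟩
    have f2 : (Q.flatMap (psi n 0)).map (rz m) = Q.flatMap (psi n 0) := by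
      apply rz_fix
      intro c hc
      rcases hψQ c hc with rfl | ⟨k, hk, rfl⟩
      · exact ⟨by unfold pin; omega, by unfold sep; omega⟩
      · exact ⟨by unfold pin con; omega, by unfold sep con; omega⟩
    have f3 : (dn n G).map (rz m) = dn n G := by
      apply rz_fix
      intro c hc
      unfold dn at hc
      rw [List.mem_flatMap] at hc
      obtain ⟨d, hd, hc⟩ := hc
      obtain ⟨k, rfl⟩ := hG' d hd
      have : c = con k := List.eq_of_mem_replicate hc
      rw [this]
      exact ⟨by unfold pin con; omega, by unfold sep con; omega⟩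
    have f4 : rz m (pin (m + 2)) = pin (m + 1) := by
      unfold rz
      rw [if_pos rfl]
    have g1 : (P.flatMap (psi n 0) ++ (dn n G ++ (pin (m + 2) :: Q.flatMap (psi n 0))) ++
        tl (τ.map (fun i => if i = m then m + 2 else i + 1))).map (rz m) =
        P.flatMap (psi n 0) ++ (dn n G ++ pin (m + 1) :: (Q.flatMap (psi n 0) ++ T)) := by
      rw [List.map_append, List.map_append, List.map_append, List.map_cons, f1, f2, f3, f4,
        tl_map2 m τ hτm, ← hTdef]
      simp [List.append_assoc]
    rw [g1] at h2
    rw [show (P.flatMap (psi n 0) ++ (dn n G ++ ([pin (m + 2)] ++ (Q.flatMap (psi n 0) ++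
      (sf W (t1 σ)).filter (fun c => decide (∃ k, k ≤ 2 * m + 2 ∧
        decide ((1 ≤ k ∧ k ≤ m) ∨ k = m + 2) = true ∧ (c = sep k ∨ c = pin k)))))) : List ℕ) =
      P.flatMap (psi n 0) ++ (dn n G ++ (pin (m + 2) :: Q.flatMap (psi n 0))) ++
      (sf W (t1 σ)).filter (fun c => decide (∃ k, k ≤ 2 * m + 2 ∧
        decide ((1 ≤ k ∧ k ≤ m) ∨ k = m + 2) = true ∧ (c = sep k ∨ c = pin k))) by
          simp [List.append_assoc]]
    exact h2
  -- RGC
  have hψd : P.flatMap (psi n 0) = dq n (fun c => decide (c % 5 ≠ 4)) P := by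
    unfold dq
    apply List.flatMap_congr
    intro c hc
    rcases hPl c hc with rfl | ⟨k, hk, rfl⟩ | ⟨i, hi, rfl⟩
    · rw [psi_one]
      simp
    · rw [psi_con]
      have h1 : (5 * k + 4) % 5 = 4 := by omega
      unfold con
      simp [h1]
    · rw [psi_pin]
      have h1 : (5 * (i + 1) + 2) % 5 ≠ 4 := by omega
      unfold pin
      simp [h1]
  have hC := rgc n β hG hFF (fun c => decide (c % 5 ≠ 4)) P G (Q.flatMap (psi n 0) ++ T) (pin (m + 1))
    (by
      intro hne
      obtain ⟨c, hc⟩ := List.exists_mem_of_ne_nil G hne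
      obtain ⟨k, hkm, rfl, hlt⟩ := hGl c hc
      exact (x3 k hkm).2.1 hlt)
    (by
      intro c hc
      obtain ⟨k, hkm, rfl, hlt⟩ := hGl c hc
      obtain ⟨-, -, d1, d2⟩ := x3 k hkm
      have z1 : Fu m (pin (m + 1)) = true := by
        unfold Fu pin con sep
        simp only [decide_eq_true_eq]
        omega
      have z2 : Fz m (pin (m + 2)) = true := by
        unfold Fz
        rw [decide_eq_true_eq]
        exact Or.inr (Or.inr (Or.inl ⟨by unfold pin; omega, Or.inr rfl⟩))
      have q1 : Fu m (con k) = true := by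
        unfold Fu pin con sep
        simp only [decide_eq_true_eq]
        omega
      have q2 : Fz m (con k) = true := by
        unfold Fz pin con sep
        simp only [decide_eq_true_eq]
        omega
      have hz1 : pin (m + 1) ∉ P := by
        intro h
        rcases hPl _ h with h | ⟨k, hk, h⟩ | ⟨i, hi, h⟩
        · unfold pin at h; omega
        · unfold pin con at h; omega
        · unfold pin at h; omega
      have hz2 : pin (m + 2) ∉ P ++ G := by
        intro h
        rcases List.mem_append.1 h with h | h
        · rcases hPl _ h with h | ⟨k, hk, h⟩ | ⟨i, hi, h⟩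
          · unfold pin at h; omega
          · unfold pin con at h; omega
          · unfold pin at h; omega
        · obtain ⟨k, h⟩ := hG' _ h
          unfold pin con at h; omega
      have n1 : nn W (con k) (pin (m + 1)) = P.count (con k) := by
        rw [nn_filter (Fu m) W _ _ z1 q1, eU]
        unfold nn
        rw [MWK.pre_split hz1]
      have n2 : nn W (con k) (pin (m + 2)) = P.count (con k) + G.count (con k) := by
        rw [nn_filter (Fz m) W _ _ z2 q2, eZ, ← List.append_assoc]
        unfold nn
        rw [MWK.pre_split hz2, List.count_append]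
      have le2 : nn W (con k) (pin (m + 2)) ≤ W.count (con k) := MWK.count_pre_le W _ _
      have hm : (W.count (con k) - nn W (con k) (pin (m + 2))) + G.count (con k) ≡
          W.count (con k) - nn W (con k) (pin (m + 1)) [MOD n] := by
        have : (W.count (con k) - nn W (con k) (pin (m + 2))) + G.count (con k) =
          W.count (con k) - nn W (con k) (pin (m + 1)) := by omega
        rw [this]
      exact (dqs n β hG _ _ d2 d1).2 _ hm)
    (by
      intro c hc
      obtain ⟨k, hkm, rfl, -⟩ := hGl c hc
      refine ⟨hcP k hkm (x3 k hkm).1, ?_⟩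
      have h1 : (5 * k + 4) % 5 = 4 := by omega
      unfold con
      simp [h1])
    (by
      have h1 : (5 * (m + 1) + 2) % 5 ≠ 4 := by omega
      unfold pin
      simp [h1])
    (by
      rw [List.nodup_iff_count_le_one]
      intro a
      by_cases ha : a ∈ (P ++ [pin (m + 1)]).filter (fun c => decide (c % 5 ≠ 4))
      · rw [List.mem_filter, List.mem_append] at ha
        obtain ⟨ha, hq⟩ := ha
        rw [List.count_filter (p := fun c => decide (c % 5 ≠ 4)) hq, List.count_append]
        have hz0 : pin (m + 1) ∉ P := by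
          intro h
          rcases hPl _ h with h | ⟨k, hk, h⟩ | ⟨i, hi, h⟩
          · unfold pin at h; omega
          · unfold pin con at h; omega
          · unfold pin at h; omega
        rcases ha with ha | ha
        · rcases hPl a ha with rfl | ⟨k, hk, rfl⟩ | ⟨i, hi, rfl⟩
          · have : ([pin (m + 1)] : List ℕ).count 1 = 0 := by
              rw [List.count_eq_zero]
              intro h
              have : (1 : ℕ) = pin (m + 1) := by simpa using h
              unfold pin at this
              omega
            omega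
          · exfalso
            have h1 : (5 * k + 4) % 5 = 4 := by omega
            unfold con at hq
            simp [h1] at hq
          · have : ([pin (m + 1)] : List ℕ).count (pin (i + 1)) = 0 := by
              rw [List.count_eq_zero]
              intro h
              have : pin (i + 1) = pin (m + 1) := by simpa using h
              unfold pin at this
              omega
            have h3 := hPp i hi
            omega
        · have : a = pin (m + 1) := by simpa using ha
          rw [this, List.count_eq_zero.2 hz0]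
          simp
      · rw [List.count_eq_zero.2 ha]
        omega)
    (by
      intro c hc hq
      rcases hPl c hc with rfl | ⟨k, hk, rfl⟩ | ⟨i, hi, rfl⟩
      · apply List.mem_append_left
        rw [List.mem_flatMap]
        exact ⟨1, hQ1, by rw [psi_one]; simp⟩
      · exfalso
        have h1 : (5 * k + 4) % 5 = 4 := by omega
        unfold con at hq
        simp [h1] at hq
      · exact List.mem_append_right _ (mem_tll τ ((hT.2 i).2 (by omega))))
    (List.mem_append_right _ (mem_tll τ ((hT.2 m).2 (le_refl m))))
  rw [← hψd] at hC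
  -- the words of `w1`
  have k1 := RR.filter (β := β) (Fu m) hK
  rw [cU] at k1
  have k2 := RR.sub (β := β) (fun c => [rz m c]) (RR.filter (β := β) (Fz m) hK)
  rw [sub_map, sub_map, cZ] at k2
  -- BtS
  have hb := hB (fun c => decide (c % 5 = 2)) []
    ((List.range m).flatMap (fun i => List.replicate (n + 1) (con i) ++ [pin (i + 1)]) ++
      List.replicate (n + 1) (con m))
    (pin (m + 1) :: T) 1
    (by rw [v_filter, List.length_map, List.length_range])
    (by
      rw [v_filter]
      apply List.Nodup.map
      · intro a b hab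
        simp only [pin] at hab
        omega
      · exact List.nodup_range)
    (by
      intro c hc hq
      have : c ∈ ((List.range m).flatMap (fun i => List.replicate (n + 1) (con i) ++
        [pin (i + 1)]) ++ List.replicate (n + 1) (con m)).filter
          (fun c => decide (c % 5 = 2)) := List.mem_filter.2 ⟨hc, hq⟩
      rw [v_filter, List.mem_map] at this
      obtain ⟨i, hi, rfl⟩ := this
      have hi' := List.mem_range.1 hi
      exact List.mem_cons_of_mem _ (mem_tll τ ((hT.2 i).2 (by omega))))
  rw [dq_v] at hb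
  -- together
  have h12 : RR β (1 :: (lw4 n (fun i => pin (i + 1)) con (m + 1) ++ (1 :: T)))
      (1 :: (lw4 n (fun i => pin (i + 1)) con m ++ (List.replicate ((n + 1) * (n + 1)) (con m) ++
        (1 :: pin (m + 1) :: T)))) :=
    β.trans (k1.symm) (β.trans hU (β.trans hC (β.trans hZ.symm k2)))
  have rs : ∀ L : List ℕ, List.replicate (n + 1) 1 ++ L = List.replicate n 1 ++ (1 :: L) := by
    intro L
    rw [List.replicate_succ', List.append_assoc]
    rfl
  have hb' : RR β (1 :: (lw4 n (fun i => pin (i + 1)) con m ++
      (List.replicate ((n + 1) * (n + 1)) (con m) ++ (1 :: pin (m + 1) :: T))))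
      (List.replicate n 1 ++ (1 :: (lw4 n (fun i => pin (i + 1)) con m ++
          (List.replicate ((n + 1) * (n + 1)) (con m) ++ (1 :: pin (m + 1) :: T))))) := by
    rw [← rs]
    simpa [List.append_assoc] using hb
  have h11 : RR β (1 :: (lw4 n (fun i => pin (i + 1)) con (m + 1) ++ (1 :: T)))
      (List.replicate (n + 1) 1 ++ (lw4 n (fun i => pin (i + 1)) con (m + 1) ++ (1 :: T))) := by
    rw [rs]
    exact β.trans h12 (β.trans hb' ((RR.refl (List.replicate n 1)).append h12.symm))
  refine ler n β hG m τ hT 1 (fun i => sep (i + 1)) (fun i => pin (i + 1)) con ?_ h11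
  rw [List.nodup_cons, List.nodup_append, List.nodup_append]
  refine ⟨?_, ?_, ⟨?_, ?_, ?_⟩, ?_⟩
  · intro h
    rw [List.mem_append, List.mem_append, List.mem_map, List.mem_map, List.mem_map] at h
    rcases h with ⟨i, -, hi⟩ | ⟨i, -, hi⟩ | ⟨i, -, hi⟩
    · unfold sep at hi; omega
    · unfold pin at hi; omega
    · unfold con at hi; omega
  · apply List.Nodup.map _ List.nodup_range
    intro a b hab
    simp only [sep] at hab
    omega
  · apply List.Nodup.map _ List.nodup_range
    intro a b hab
    simp only [pin] at hab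
    omega
  · apply List.Nodup.map _ List.nodup_range
    intro a b hab
    simp only [con] at hab
    omega
  · intro a ha b hb hab
    rw [List.mem_map] at ha hb
    obtain ⟨i, -, rfl⟩ := ha
    obtain ⟨j, -, rfl⟩ := hb
    unfold pin con at hab
    omega
  · intro a ha b hb hab
    rw [List.mem_map] at ha
    rw [List.mem_append, List.mem_map, List.mem_map] at hb
    obtain ⟨i, -, rfl⟩ := ha
    rcases hb with ⟨j, -, rfl⟩ | ⟨j, -, rfl⟩
    · unfold sep pin at hab; omega
    · unfold sep con at hab; omega

end Pool.Agent.MWLQ.H32
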